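import Pool.Agent.N144.TD.Gal

/-!
# Motives with multiplication by a division algebra of prime degree over an imaginary quadratic field

Let `M` be a direct sum of pure motives `M i` (in the category of André) over a finitely generated field
`k` of characteristic zero; `Γ` is the Galois group of `k`, or the fundamental group of a model, and `ρ ℓ`
the action of `Γ` on the `ℓ`-adic realization `V_ℓ` of `M`.  Let `𝔤` be the Lie algebra (over `ℚ`, in the
Betti realization) of the motivic Galois group of `M` over an algebraically closed field.

The motives which are considered here have over the algebraic closure endomorphisms by an algebra `D` such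
that `D ⊗ ℚ_ℓ₀ = D_λ × D_μ`, where `D_λ` is a noncommutative division algebra, for one prime number
`ℓ₀`, and a polarization `ψ` whose involution exchanges the two factors; the rank of `M` is `2 p ^ 2`, with
a prime number `p`.  For example `D` is a division algebra of degree `p` over an imaginary quadratic field
`F` with a positive involution, ramified at a place `λ` above the prime number `ℓ₀`, which splits in `F`, and
`V_ℓ₀` is free of rank one over `D ⊗ ℚ_ℓ₀`.  In `DivisionType` there is only the data at `ℓ₀`: `𝒟` is
`D ⊗ ℚ_ℓ₀`, `J` a generator of `F` over `ℚ` of trace zero and `j` its image at `λ`, so that `V_λ` is the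
eigenspace of `J` for the eigenvalue `j`.  Then `𝔤 ⊗ ℚ_ℓ₀` is contained in the Lie algebra
`similitudes 𝒟 ψ` of the endomorphisms which commute with `𝒟` and are similitudes of `ψ`; over an
algebraically closed field the latter is `𝔤𝔩_p × 𝔤𝔪`.

**Theorem.**  Suppose that no subgroup of finite index of `Γ` acts on `V_ℓ₀` by commuting operators.

(1) Suppose that some element `σ` of `Γ` preserves `V_λ` and `V_μ`, has multiplicatively independent
determinants on them, and no power of `σ` acts on `V_λ` by a scalar (`Generic`).  Then
`𝔤 ⊗ ℚ_ℓ₀ = similitudes 𝒟 ψ`, the representation `V_ℓ₀` is semisimple over all finite extensions of `k`,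
and all Tate tensors (in all tensor spaces of `V_ℓ₀` and its dual space) are motivated: they are
the tensors killed by `𝔤 ⊗ ℚ_ℓ₀`.

(2) Suppose that `k = ℚ`, or that there is a point `s` over `ℚ` of the model, and that there is such an
element `s τ` in the image of the Galois group of `ℚ`.  Then for EVERY prime number `ℓ` the
representation `V_ℓ` is semisimple over all finite extensions, the Lie algebra of the endomorphisms
which kill all Tate tensors is a reductive subalgebra of `𝔤 ⊗ ℚ_ℓ` of maximal rank `p + 1`, all Tate
tensors are motivated if all Tate endomorphisms are, and so on (`RankTheorem`).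

The hypotheses on `Γ` are obviously necessary if the motivic Galois group is the full group of
similitudes.  For abelian varieties the semisimplicity is a theorem of Faltings.  For other motives
neither the semisimplicity nor anything about Tate tensors was known.

Proof.  Let `L` be the Lie algebra of the endomorphisms which preserve all subspaces stable under a
subgroup of finite index and kill all Tate tensors.  If the blocks of its elements on `V_λ` commute, then
it is commutative, because the commutators are multiples of a projector and have trace zero, and then by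
the theory of unipotent parts and tori a subgroup of finite index acts by commuting operators.  So
the block of `L` on `V_λ` is a noncommutative Lie subalgebra of the division algebra `B` of the endomorphisms
which commute with `D_λ`.  A Lie subalgebra of a division algebra of prime degree over a `p`-adic field
which is not commutative contains all commutators (`Pool.Agent.N144.DV`): an element `x` which is
not central generates a field `E` of degree `p`, `B` is an `E ⊗ E`-module of rank one, and a
cyclic group of order `p` acts on the roots of the minimal polynomial, so that the quotients and the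
differences of different roots behave as if they were independent.  For the same reason, if
a product of powers of the eigenvalues of `x` is in `ℚ_ℓ₀`, then the exponents are equal or some power of
`x` is a scalar; so the `p` eigenvalues of `σ` on `V_λ` are independent, and together with one of the
eigenvalues on `V_μ` there are `p + 1` independent eigenvalues.  It follows that `L` contains a torus of
dimension `p + 1`, which is the rank of the Lie algebra of the similitudes.  (2) follows from (1) and
the theorem about ranks and endomorphisms (`Pool.Agent.N203.RE.main_element`, see the hand-in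
`RankAndEndomorphisms` of `MP_b8862a_ag`), which needs `p + 1` independent eigenvalues at one prime.
-/

set_option autoImplicit false

namespace Pool.Agent.Results.MP_bbcdf5_ag.DivisionMultiplication

open NumberField IsDedekindDomain Module Pool.Agent.Y114.RM Pool.Agent.Y114.GF Pool.Agent.Y114.TF
  Pool.Agent.R931.IR Pool.Agent.N203.RE Pool.Agent.N144.TD

section general

variable (k V : Type) [Field k] [AddCommGroup V] [Module k V]

/-- The action of `D` on the `ℓ`-adic realization: an algebra, an element `J` of its centre with the
eigenvalue `j`, and a form, of division type. -/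
structure DivMult where
  /-- the prime number -/
  p : ℕ
  /-- the algebra -/
  alg : Subalgebra k (End k V)
  /-- the element of the centre -/
  J : End k V
  /-- its eigenvalue -/
  j : k
  /-- the form -/
  form : V →ₗ[k] V →ₗ[k] k
  type : DivisionType p alg J j form

variable {k V} (A : DivMult k V) {Γ : Type} [Group Γ] (ρ : Representation k Γ V)

/-- The endomorphisms which commute with the algebra and are (infinitesimal) similitudes. -/
def Simil (X : End k V) : Prop :=
  (∀ Y ∈ A.alg, X * Y = Y * X) ∧
    ∃ c, ∀ x y, A.form (X x) y + A.form x (X y) = c * A.form x y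

/-- All elements of `𝔤` commute with the algebra and are similitudes. -/
def MultOn (𝔤 : Submodule k (End k V)) : Prop := ∀ X ∈ 𝔤, Simil A X

/-- The elements of `𝔤` are all endomorphisms which commute with the algebra and are similitudes. -/
def IsAllSimil (𝔤 : Submodule k (End k V)) : Prop := ∀ X, X ∈ 𝔤 ↔ Simil A X

/-- The element `σ` preserves `V_λ` and `V_μ`, its determinants on them are independent, and no power of
it is a scalar on `V_λ`. -/
def GenericAt (σ : Γ) : Prop := Generic A.J A.j (ρ σ)

/-- No subgroup of finite index acts by commuting operators. -/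
def NeverCommutes : Prop := ∀ Δ : Subgroup Γ, Δ.FiniteIndex →
  ∃ a ∈ Δ, ∃ b ∈ Δ, ∃ x, ρ a (ρ b x) ≠ ρ b (ρ a x)

end general

section ladic

variable {ι : Type} (n : ι → ℕ) (ℓ : ℕ) [Fact ℓ.Prime] {Γ : Type} [Group Γ]

/-- The actions on the direct sum of the spaces `ℚ_ℓ ^ (n i)`. -/
def Mult : Type := DivMult ℚ_[ℓ] (∀ i, Fin (n i) → ℚ_[ℓ])

variable {n ℓ} (ρ : Reps Γ n ℓ) (𝔤 : Submodule ℚ (End ℚ (Betti n))) (A : Mult n ℓ)

/-- The extension of scalars of `𝔤` commutes with the algebra and consists of similitudes. -/
def HasMult : Prop := MultOn A (scalars ℓ 𝔤)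

/-- The extension of scalars of `𝔤` is the Lie algebra of all similitudes which commute with the
algebra. -/
def IsFull : Prop := IsAllSimil A (scalars ℓ 𝔤)

/-- The element `σ` is generic (`GenericAt`). -/
def IsGeneric (σ : Γ) : Prop := GenericAt A (sumRep ρ) σ

/-- No subgroup of finite index acts by commuting operators. -/
def NotAbelian : Prop := NeverCommutes (sumRep ρ)

end ladic

theorem result {Γ : Type} [Group Γ] [TopologicalSpace Γ] [IsTopologicalGroup Γ] [CompactSpace Γ]
    {ι : Type} [Fintype ι] [DecidableEq ι] {n : ι → ℕ}
    -- the `ℓ`-adic realizations and the Lie algebra of the motivic Galois group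
    (ρ : ∀ (ℓ : ℕ) [Fact ℓ.Prime], Reps Γ n ℓ) (𝔤 : Submodule ℚ (End ℚ (Betti n)))
    (ℓ₀ : ℕ) [Fact ℓ₀.Prime] (hcont : Conts (ρ ℓ₀)) (hmot : Motivic (ρ ℓ₀) (scalars ℓ₀ 𝔤))
    -- the multiplication and the polarization
    (A : Mult n ℓ₀) (h𝔤 : HasMult 𝔤 A) (hab : NotAbelian (ρ ℓ₀)) :
    -- (1) all Tate tensors are motivated, at the prime number `ℓ₀`
    ((∃ σ, IsGeneric (ρ ℓ₀) A σ) →
      IsFull 𝔤 A ∧ Semisimple (ρ ℓ₀) ∧ TateMotivated (ρ ℓ₀) 𝔤) ∧
    -- (2) all prime numbers `ℓ`
    (∀ (s : Gal(AlgebraicClosure ℚ/ℚ) →* Γ) (w : ι → ℤ) (S : Set (HeightOneSpectrum (𝓞 ℚ)))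
      (P : HeightOneSpectrum (𝓞 ℚ) → ι → Polynomial ℚ), Realizations s w S P ρ 𝔤 →
      ∀ c : ℕ, IntegralOutside S P c → (∃ τ, IsGeneric (ρ ℓ₀) A (s τ)) →
      ∀ (ℓ : ℕ) [Fact ℓ.Prime], RankTheorem (ρ ℓ) 𝔤 (DivMult.p A + 1)) := by
  have hab' : NotPotentiallyAbelian (ρ ℓ₀) := fun Δ hΔ => by
    obtain ⟨a, ha, b, hb, x, hx⟩ := hab Δ hΔ
    exact ⟨a, ha, b, hb, fun h => hx (LinearMap.congr_fun h x)⟩
  have h𝔤' : scal ℓ₀ 𝔤 ≤ similitudes (DivMult.alg A) (DivMult.form A) := h𝔤
  refine ⟨?_, fun s w S P hR c hint => ?_⟩
  · rintro ⟨σ, hσ⟩
    obtain ⟨-, -, -, -, -, h1, h2, h3, -⟩ := main_aux (ρ ℓ₀) hcont (scal ℓ₀ 𝔤) hmot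
      (DivMult.type A) h𝔤' hab' σ hσ
    refine ⟨fun X => ?_, h2, h3⟩
    change X ∈ scal ℓ₀ 𝔤 ↔ X ∈ similitudes (DivMult.alg A) (DivMult.form A)
    rw [h1]
  · rintro ⟨τ, hτ⟩ ℓ _
    obtain ⟨X₀, Y₀, hX₀, hY₀, hXY, -, -, -, M, hM⟩ := main_aux (ρ ℓ₀) hcont (scal ℓ₀ 𝔤) hmot
      (DivMult.type A) h𝔤' hab' (s τ) hτ
    exact main_element hR c hint (DivMult.p A + 1) (ratRank (DivMult.type A) h𝔤' hX₀ hY₀ hXY) ℓ₀
      ⟨τ ^ M, by rw [map_pow]; exact hM⟩ ℓ

end Pool.Agent.Results.MP_bbcdf5_ag.DivisionMultiplication
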