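import Pool.Agent.N536.OP.Mot

/-!
# The motivic Tate conjecture, component groups included, from one prime number

Let `k` be a finitely generated field of characteristic zero, `M i`, for `i` in a finite set, motives over
`k` (of André, or for absolute Hodge cycles), of rank `N i` and weight `w i`, with a form `J i` given by a
polarization (a rational matrix in the Betti realization) which is alternating, or symmetric
(then `M i` is twisted to weight `0`) of odd rank at least `5` or of even rank at least `8`. Let `A` be an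
Artin motive of rank `m`, given by a representation `α` with rational coefficients and finite image. The
motives extend to a smooth model `T` of `k`; `Γ` is its fundamental group, a quotient of the absolute Galois
group of `k`, and a closed point of the generic fibre of `T` (of residue field the number field `K`)
gives a homomorphism `s` from the absolute Galois group of `K` to `Γ` (if `k` is a number field one can
take `K = k` and for `s` the identity). The `ℓ`-adic realizations `ρ i ℓ`, for all prime numbers `ℓ`, have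
the properties in `IsSystem`.

The motivic Galois group `𝒢` of `M = ⊕ M i ⊕ A` is an algebraic group over `ℚ`, contained in the product of
the groups `GL (N i)` and `GL m`, given by a set `Pol` of rational polynomials in the entries of the
matrices (`IsMotivicGroup`): its elements are similitudes of the `J i` with factors `t ^ w i`, as the
polarizations are morphisms `M i ⊗ M i → ℚ (- w i)`; it contains the images of `Γ` for all `ℓ`; and we
suppose that it contains the symplectic groups and special orthogonal groups of all `J i`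
(simultaneously). So up to its component group and its similitude characters it is as big as
possible; but the component group can be nontrivial: determinants of the symmetric `M i`, with
relations between them and with the Artin motive `A`.

The motivic Tate conjecture for `M` at `ℓ` (`MotivicTate`) says that the Zariski closure of the image of the
Galois group, over the algebraic closure of the field of `ℓ`-adic numbers, is the group `𝒢`.

**Theorem.** Let `ℓ₀` be ONE prime number with `ℓ₀ ≠ 2` if there are alternating forms, `ℓ₀ ∤ N i - 1` if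
`J i` is symmetric and `N i` odd, and `ℓ₀ ∤ (N i - 2) (N i - 4)`, `det J i` of even `ℓ₀`-adic valuation if
`J i` is symmetric and `N i` even (`IsSuitable`; almost all prime numbers are suitable). Suppose that
the motivic Tate conjecture holds at `ℓ₀` for the fibre of `M` at the closed point (that is, for the
representations of the Galois group of `K`; by Hilbert's irreducibility theorem there are many such
points if it holds for `M` at `ℓ₀`). Then:

(a) the motivic Tate conjecture holds for `M` at `ℓ`, component groups included, for all prime numbers `ℓ`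
outside of a set of natural density zero;

(b) it holds for `M` at EVERY prime number `ℓ` at which every matrix which commutes with an open
subgroup of `Γ` on a realization `V i` is scalar (the Tate conjecture for the endomorphisms of the
`M i`), provided that the `V i` are semisimple representations of `Γ`, or else that the closed point is
rational, `K = ℚ`, and that at the point the motives are pure and multiples of the Frobenius
eigenvalues by powers of `N v` are integral (as for all direct factors of the cohomology of smooth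
projective varieties). So no semisimplicity is needed for motives over `ℚ`, or over a field `k` with a
model which has a rational point over which the motive has good reduction.

Idea of the proof. (a), and (b) in the semisimple case: the theorem `mtateA_main` of
`Pool.Agent.R932.GR`, a library theorem which was never handed in. The size of the image at `ℓ₀` gives
Frobenius polynomials with strong properties, and these give the full Lie algebra of the image at
other prime numbers; the components are compared by means of Chebotarev's density theorem: the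
determinants and the Artin motive are determined by the Frobenius polynomials. New here: (b) without
semisimplicity. A stable subspace of `V i` which meets its orthogonal complement gives a stable isotropic
subspace, whose determinant is, up to a finite order character, half of the expected power of the
cyclotomic character (`ℓ`-adic six exponentials theorem, theorem of Kronecker and Weber, for a Tate
twist of positive weight), and this gives a relation between Frobenius eigenvalues at all places,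
which contradicts the size of the image at `ℓ₀`.
-/

set_option autoImplicit false

namespace Pool.Agent.Results.MP_bbcdf5_ag.FromOnePrime

open Matrix Polynomial Filter Topology NumberField IsDedekindDomain

/-- the absolute Galois group, with the profinite (Krull) topology -/
abbrev AbsoluteGaloisGroup (K : Type) [Field K] : Type := Gal(AlgebraicClosure K/K)

/-- `σ` is a Frobenius element at the prime `v` of `K`: there is a maximal ideal `Q` above `v` of the
ring of all algebraic integers with `σ x ≡ x ^ N(v)` modulo `Q` for all `x` -/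
def IsFrobenius {K : Type} [Field K] [NumberField K] (v : HeightOneSpectrum (𝓞 K))
    (σ : AbsoluteGaloisGroup K) : Prop :=
  ∃ Q : Ideal (𝓞 (AlgebraicClosure K)), Q.IsMaximal ∧
    Q.comap (algebraMap (𝓞 K) (𝓞 (AlgebraicClosure K))) = v.asIdeal ∧
    ∀ x : 𝓞 (AlgebraicClosure K), σ • x - x ^ Ideal.absNorm v.asIdeal ∈ Q

/-- the rational matrix as an `ℓ`-adic matrix -/
noncomputable abbrev adic (ℓ : ℕ) [Fact ℓ.Prime] {n : ℕ} (J : Matrix (Fin n) (Fin n) ℚ) :
    Matrix (Fin n) (Fin n) ℚ_[ℓ] :=
  J.map (algebraMap ℚ ℚ_[ℓ])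

/-- nondegenerate forms: alternating, or symmetric of odd rank at least `5`, or symmetric of even
rank at least `8` -/
def IsForm {n : ℕ} (J : Matrix (Fin n) (Fin n) ℚ) : Prop :=
  J.det ≠ 0 ∧ 0 < n ∧ (Jᵀ = -J ∨ Jᵀ = J ∧ (Odd n ∧ 5 ≤ n ∨ Even n ∧ 8 ≤ n))

/-- the prime number `ℓ` is suitable for the form (almost all prime numbers are) -/
def IsSuitable (ℓ : ℕ) [Fact ℓ.Prime] {n : ℕ} (J : Matrix (Fin n) (Fin n) ℚ) : Prop :=
  (Jᵀ = -J → ℓ ≠ 2) ∧ (Jᵀ = J → Odd n → ¬ ℓ ∣ n - 1) ∧
    (Jᵀ = J → Even n → ¬ ℓ ∣ (n - 2) * (n - 4) ∧ Even (Padic.valuation (adic ℓ J).det))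

/-- The `ℓ`-adic realizations, for all prime numbers `ℓ`, of motives of rank `N i` and weight `w i` with
polarization `J i`, as representations of `Γ`. The homomorphism `s` is given by a closed point with
residue field `K`; the fibre of the motives at this point has good reduction outside of the finite
set `S` of places of `K` and Frobenius polynomials `P i v`; `κ ℓ` is the inverse of the cyclotomic
character. -/
structure IsSystem {K : Type} [Field K] [NumberField K] {Γ : Type} [Group Γ] [TopologicalSpace Γ]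
    (s : AbsoluteGaloisGroup K →* Γ) {ι : Type} {N : ι → ℕ} (w : ι → ℕ)
    (S : Set (HeightOneSpectrum (𝓞 K))) (P : ι → HeightOneSpectrum (𝓞 K) → ℚ[X])
    (J : ∀ i, Matrix (Fin (N i)) (Fin (N i)) ℚ)
    (κ : ∀ (ℓ : ℕ) [Fact ℓ.Prime], Γ →* ℚ_[ℓ])
    (ρ : ∀ (i : ι) (ℓ : ℕ) [Fact ℓ.Prime], Γ →* Matrix (Fin (N i)) (Fin (N i)) ℚ_[ℓ]) : Prop where
  point : Continuous s
  finite : S.Finite
  form : ∀ i, IsForm (J i)
  weight : ∀ i, (J i)ᵀ = J i → w i = 0
  continuous_char : ∀ (ℓ : ℕ) [Fact ℓ.Prime], Continuous fun g => κ ℓ (s g)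
  char_frobenius : ∀ (ℓ : ℕ) [Fact ℓ.Prime], ∀ v ∉ S, (ℓ : 𝓞 K) ∉ v.asIdeal →
    ∀ σ : AbsoluteGaloisGroup K, IsFrobenius v σ → κ ℓ (s σ⁻¹) = (Ideal.absNorm v.asIdeal : ℚ_[ℓ])
  continuous : ∀ (i : ι) (ℓ : ℕ) [Fact ℓ.Prime], Continuous (ρ i ℓ)
  similitude : ∀ (i : ι) (ℓ : ℕ) [Fact ℓ.Prime] (g : Γ),
    (ρ i ℓ g)ᵀ * adic ℓ (J i) * ρ i ℓ g = κ ℓ g ^ w i • adic ℓ (J i)
  frobenius : ∀ (i : ι) (ℓ : ℕ) [Fact ℓ.Prime], ∀ v ∉ S, (ℓ : 𝓞 K) ∉ v.asIdeal →
    ∀ σ : AbsoluteGaloisGroup K, IsFrobenius v σ →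
      (ρ i ℓ (s σ⁻¹)).charpoly = (P i v).map (algebraMap ℚ ℚ_[ℓ])

/-- polynomials in the entries of a family of matrices and of one more matrix -/
abbrev Poly (F : Type) [Field F] {ι : Type} (N : ι → ℕ) (m : ℕ) : Type :=
  MvPolynomial ((Σ i, Fin (N i) × Fin (N i)) ⊕ (Fin m × Fin m)) F

/-- the entries of a family of matrices and of one more matrix -/
def entries {F : Type} {ι : Type} {N : ι → ℕ} {m : ℕ} (x : ∀ i, Matrix (Fin (N i)) (Fin (N i)) F)
    (a : Matrix (Fin m) (Fin m) F) : (Σ i, Fin (N i) × Fin (N i)) ⊕ (Fin m × Fin m) → F :=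
  Sum.elim (fun y => x y.1 y.2.1 y.2.2) fun y => a y.1 y.2

/-- the rational polynomial vanishes at the matrices over the field `F` -/
def Vanishes {F : Type} [Field F] [Algebra ℚ F] {ι : Type} {N : ι → ℕ} {m : ℕ} (f : Poly ℚ N m)
    (x : ∀ i, Matrix (Fin (N i)) (Fin (N i)) F) (a : Matrix (Fin m) (Fin m) F) : Prop :=
  MvPolynomial.aeval (entries x a) f = 0

/-- the set `Pol` of polynomials defines a group with the properties of the motivic Galois group: all
elements are similitudes of the forms with factors `t ^ w i`, it contains the products of the symplectic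
and special orthogonal groups of the forms, and it contains the images of the Galois group -/
structure IsMotivicGroup {Γ : Type} [Group Γ] {ι : Type} {N : ι → ℕ} {m : ℕ} (w : ι → ℕ)
    (Pol : Set (Poly ℚ N m)) (J : ∀ i, Matrix (Fin (N i)) (Fin (N i)) ℚ)
    (ρ : ∀ (i : ι) (ℓ : ℕ) [Fact ℓ.Prime], Γ →* Matrix (Fin (N i)) (Fin (N i)) ℚ_[ℓ])
    (α : Γ →* Matrix (Fin m) (Fin m) ℚ) : Prop where
  similitudes : ∀ (x : ∀ i, Matrix (Fin (N i)) (Fin (N i)) ℂ) (a : Matrix (Fin m) (Fin m) ℂ),
    (∀ i, (x i).det ≠ 0) → a.det ≠ 0 → (∀ f ∈ Pol, Vanishes f x a) →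
    ∃ t : ℂ, t ≠ 0 ∧ ∀ i, (x i)ᵀ * (J i).map (algebraMap ℚ ℂ) * x i =
      t ^ w i • (J i).map (algebraMap ℚ ℂ)
  big : ∀ x : ∀ i, Matrix (Fin (N i)) (Fin (N i)) ℂ,
    (∀ i, (x i)ᵀ * (J i).map (algebraMap ℚ ℂ) * x i = (J i).map (algebraMap ℚ ℂ)) →
    (∀ i, (x i).det = 1) → ∀ f ∈ Pol, Vanishes f x (1 : Matrix (Fin m) (Fin m) ℂ)
  galois : ∀ (ℓ : ℕ) [Fact ℓ.Prime] (σ : Γ), ∀ f ∈ Pol,
    Vanishes f (fun i => ρ i ℓ σ) ((α σ).map (algebraMap ℚ ℚ_[ℓ]))

/-- the matrices `x` and `a` over the algebraic closure of the field of `ℓ`-adic numbers are in the Zariski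
closure of the image of the Galois group -/
def InZariskiClosure {Γ : Type} [Group Γ] {ι : Type} {N : ι → ℕ} {m : ℕ} {ℓ : ℕ} [Fact ℓ.Prime]
    (ρ : ∀ i, Γ →* Matrix (Fin (N i)) (Fin (N i)) ℚ_[ℓ]) (α : Γ →* Matrix (Fin m) (Fin m) ℚ)
    (x : ∀ i, Matrix (Fin (N i)) (Fin (N i)) (AlgebraicClosure ℚ_[ℓ]))
    (a : Matrix (Fin m) (Fin m) (AlgebraicClosure ℚ_[ℓ])) : Prop :=
  ∀ f : Poly (AlgebraicClosure ℚ_[ℓ]) N m,
    (∀ σ, MvPolynomial.eval (entries
      (fun i => (ρ i σ).map (algebraMap ℚ_[ℓ] (AlgebraicClosure ℚ_[ℓ])))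
      ((α σ).map (algebraMap ℚ (AlgebraicClosure ℚ_[ℓ])))) f = 0) →
    MvPolynomial.eval (entries x a) f = 0

/-- the motivic Tate conjecture at `ℓ`: the Zariski closure of the image of the Galois group is the
group given by the polynomials in `Pol` -/
def MotivicTate {Γ : Type} [Group Γ] {ι : Type} {N : ι → ℕ} {m : ℕ} (Pol : Set (Poly ℚ N m))
    {ℓ : ℕ} [Fact ℓ.Prime] (ρ : ∀ i, Γ →* Matrix (Fin (N i)) (Fin (N i)) ℚ_[ℓ])
    (α : Γ →* Matrix (Fin m) (Fin m) ℚ) : Prop :=
  ∀ (x : ∀ i, Matrix (Fin (N i)) (Fin (N i)) (AlgebraicClosure ℚ_[ℓ]))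
    (a : Matrix (Fin m) (Fin m) (AlgebraicClosure ℚ_[ℓ])),
    (∀ i, (x i).det ≠ 0) → a.det ≠ 0 → (InZariskiClosure ρ α x a ↔ ∀ f ∈ Pol, Vanishes f x a)

/-- every stable subspace has a stable complement -/
def IsSemisimple {F G : Type} [Field F] [Group G] {n : ℕ} (ρ : G →* Matrix (Fin n) (Fin n) F) :
    Prop :=
  ∀ W : Submodule F (Fin n → F), (∀ g, ∀ x ∈ W, ρ g *ᵥ x ∈ W) →
    ∃ W' : Submodule F (Fin n → F), IsCompl W W' ∧ ∀ g, ∀ x ∈ W', ρ g *ᵥ x ∈ W'

/-- the matrices which commute with an open subgroup are scalar -/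
def HasScalarEndomorphisms {F G : Type} [Field F] [Group G] [TopologicalSpace G] {n : ℕ}
    (ρ : G →* Matrix (Fin n) (Fin n) F) : Prop :=
  ∀ (A : Matrix (Fin n) (Fin n) F) (U : Subgroup G), IsOpen (U : Set G) →
    (∀ σ ∈ U, A * ρ σ = ρ σ * A) → ∃ c : F, A = c • (1 : Matrix (Fin n) (Fin n) F)

/-- a set of prime numbers has natural density zero -/
def DensityZero (A : Set ℕ) : Prop :=
  Tendsto (fun n : ℕ => (Nat.card {ℓ : ℕ // ℓ ≤ n ∧ ℓ ∈ A} : ℝ) / (Nat.primeCounting n : ℝ))
    atTop (𝓝 0)

/-- the motives are pure, and multiples of the Frobenius eigenvalues by powers of `N v` are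
integral -/
def IsPureIntegral {K : Type} [Field K] [NumberField K] {ι : Type} (w : ι → ℕ)
    (S : Set (HeightOneSpectrum (𝓞 K))) (P : ι → HeightOneSpectrum (𝓞 K) → ℚ[X]) : Prop :=
  ∀ i, ∃ n : ℕ, 0 < w i + 2 * n ∧ ∀ v ∉ S,
    (∃ R : ℤ[X], R.map (algebraMap ℤ ℚ) =
      (P i v).scaleRoots ((Ideal.absNorm v.asIdeal : ℚ) ^ n)) ∧
    ∀ z : ℂ, aeval z (P i v) = 0 → ‖z‖ ^ 2 = (Ideal.absNorm v.asIdeal : ℝ) ^ w i

theorem result {K : Type} [Field K] [NumberField K] {Γ : Type} [Group Γ] [TopologicalSpace Γ]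
    [IsTopologicalGroup Γ] [CompactSpace Γ] (s : AbsoluteGaloisGroup K →* Γ)
    {ι : Type} [Fintype ι] {N : ι → ℕ} {m : ℕ} (w : ι → ℕ)
    (S : Set (HeightOneSpectrum (𝓞 K))) (P : ι → HeightOneSpectrum (𝓞 K) → ℚ[X])
    (J : ∀ i, Matrix (Fin (N i)) (Fin (N i)) ℚ)
    (κ : ∀ (ℓ : ℕ) [Fact ℓ.Prime], Γ →* ℚ_[ℓ])
    (ρ : ∀ (i : ι) (ℓ : ℕ) [Fact ℓ.Prime], Γ →* Matrix (Fin (N i)) (Fin (N i)) ℚ_[ℓ])
    (h : IsSystem s w S P J κ ρ)
    -- the Artin motive
    (α : Γ →* Matrix (Fin m) (Fin m) ℚ) {U : Subgroup Γ} (hU : IsOpen (U : Set Γ))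
    (hα : ∀ σ ∈ U, α σ = 1)
    -- the motivic Galois group
    (Pol : Set (Poly ℚ N m)) (hPol : IsMotivicGroup w Pol J ρ α)
    -- the hypotheses at one prime number
    (ℓ₀ : ℕ) [Fact ℓ₀.Prime] (hsuit : ∀ i, IsSuitable ℓ₀ (J i))
    (hone : MotivicTate Pol (fun i => (ρ i ℓ₀).comp s) (α.comp s)) :
    -- (a) at 100 percent of the prime numbers
    DensityZero {ℓ | ∃ _ : Fact ℓ.Prime, ¬ MotivicTate Pol (fun i => ρ i ℓ) α} ∧
    -- (b) at every prime number
    ∀ (ℓ : ℕ) [Fact ℓ.Prime],
      ((∀ i, IsSemisimple (ρ i ℓ)) ∨ (Module.finrank ℚ K = 1 ∧ IsPureIntegral w S P)) →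
      (∀ i, HasScalarEndomorphisms (ρ i ℓ)) → MotivicTate Pol (fun i => ρ i ℓ) α := by
  classical
  have hkd : ∀ i, ∃ kd : Pool.Agent.R932.PO.Kind, Pool.Agent.R932.PO.Fits kd (J i) ∧
      Pool.Agent.R932.PO.Allows kd (N i) ℓ₀ (Pool.Agent.R932.PO.JL J ℓ₀ i) := by
    intro i
    obtain ⟨-, hn, hJ | ⟨hJ, ⟨ho, h5⟩ | ⟨he, h8⟩⟩⟩ := h.form i
    · exact ⟨.sym, ⟨hJ, hn⟩, (hsuit i).1 hJ⟩
    · exact ⟨.odd, ⟨hJ, ho, h5⟩, (hsuit i).2.1 hJ ho⟩
    · exact ⟨.even, ⟨hJ, he, h8⟩, (hsuit i).2.2 hJ he⟩
  choose kd hfit hal using hkd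
  have hmain := Pool.Agent.R932.GR.mtateA_main h.finite h.point J hfit (fun i => (h.form i).1)
    h.weight α hU hα κ (fun ℓ _ => h.char_frobenius ℓ) ρ (fun i ℓ _ => h.continuous i ℓ)
    (fun i ℓ _ => h.similitude i ℓ) (fun i ℓ _ => h.frobenius i ℓ) Pol hPol.similitudes hPol.big
    (fun ℓ _ => hPol.galois ℓ) ℓ₀ hal hone
  refine ⟨hmain.1, ?_⟩
  rintro ℓ _ (hss | ⟨hK, hpi⟩) hsc
  · exact hmain.2 ℓ hss hsc
  · choose n hn hpi using hpi
    exact Pool.Agent.N536.OP.mot_every h.finite h.point J hfit (fun i => (h.form i).1)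
      h.weight α hU hα κ (fun ℓ _ => h.continuous_char ℓ) (fun ℓ _ => h.char_frobenius ℓ) ρ
      (fun i ℓ _ => h.continuous i ℓ) (fun i ℓ _ => h.similitude i ℓ)
      (fun i ℓ _ => h.frobenius i ℓ) Pol hPol.similitudes hPol.big
      (fun ℓ _ => hPol.galois ℓ) ℓ₀ hal hone hK n hn (fun i v hv => (hpi i v hv).1)
      (fun i v hv => (hpi i v hv).2) ℓ hsc

end Pool.Agent.Results.MP_bbcdf5_ag.FromOnePrime
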