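import Pool.Agent.N978.HP.Final
import Pool.Agent.N592.HP.SV
import Pool.Agent.N279.HP.DV

/-!
# Families of motives with regular unipotent monodromy: from one member at one prime to 100 percent of
# the members at every prime

Let `M` be the sum of finitely many families `M i` of pure motives of dimension `n i` and weight `w i`
over an open subset `U` of the projective line over `ℚ`, and let `𝔤` be the Lie algebra of the motivic
Galois group of the generic member (over an algebraically closed field), of rank at most `r`. Suppose
that each `M i` has regular unipotent monodromy (in the image of `𝔤` in the endomorphisms of `M i`,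
of rank at most `r' i`) at some closed point of the projective line, the zeros of the binary form
`C i`. This is so for the families of Calabi-Yau varieties, or rigid local systems, with a point of
maximally unipotent monodromy, such as the mirror quintic (`Sp₄`), the family of Dettweiler and Reiter
(`G₂`), the families of Yun (`G₂`, `E₇`, `E₈`), and the hypergeometric families with groups `Sp`, `SO`
(odd), `SL`, `G₂`.

Theorem. Suppose that for ONE rational point `t₀` of `U` and ONE prime number `ℓ₀` there is one element
`σ` of the Galois group of `ℚ` with `r` multiplicatively independent eigenvalues on the `ℓ₀`-adic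
realization of `M_{t₀}` (and `r' i` on that of `M i`); it is sufficient that this is so for one
Frobenius element, at one prime number. Then for 100 percent of the rational points `t` of the
projective line, ordered by height, and for EVERY prime number `ℓ`, the `ℓ`-adic realization of `M_t`
is a semisimple representation of the Galois group of `ℚ` and of all its subgroups of finite index,
and its Tate tensors are exactly the tensors killed by `𝔤 ⊗ ℚ_ℓ`: so all of them are motivated, the
motivic Galois group of `M_t` has the Lie algebra `𝔤`, and its identity component is the one of the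
Zariski closure of the image of the Galois group (the Tate conjecture in the form of Serre and
Banaszak-Kedlaya, for identity components).

The known results on the exceptional members (Serre, Terasoma, André, Cadoret-Tamagawa) are for one
`ℓ`; independence of `ℓ` of the exceptional set is known for abelian schemes only (Hui). The theorem
`RegularMonodromy` among the earlier results on this page is for one motive with given places of
regular monodromy.

The proof: the Frobenius elements near `σ` have independent eigenvalues (library
`Pool.Agent.R931.IR`), so by Chebotarev's theorem there is a set of prime numbers `p` of positive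
density at which `M_{t₀}` has good reduction with Frobenius eigenvalues of maximal rank. By a sieve
(`Pool.Agent.N592.HP`, helper592; `Pool.Agent.N279.HP`, helper279) 100 percent of the points `t` are
congruent to `t₀` modulo two of these primes, and have reduction in the zeros of `C i` modulo two
primes; one of the two is different from `ℓ`. Then the library `Pool.Agent.Y114.RM` applies.
-/

set_option autoImplicit false

namespace Pool.Agent.Results.MP_bbcdf5_ag.RegularCuspFamilies

open Polynomial Module Pool.Agent.Y114.RM Pool.Agent.R931.IR Pool.Agent.N203.RE
  Pool.Agent.N978.HP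

theorem result {Γ : Type} [Group Γ] [TopologicalSpace Γ] {ι : Type} [Fintype ι] [DecidableEq ι]
    {n : ι → ℕ}
    -- the family over `U` and its motivic Lie algebra, of rank at most `r`
    (s : Pt → Gal(AlgebraicClosure ℚ/ℚ) →* Γ) (w : ι → ℤ) (m : ℕ) (D : MvPolynomial (Fin 2) ℤ)
    (P : ℕ → Pt → ι → ℚ[X]) (ρ : ∀ (ℓ : ℕ) [Fact ℓ.Prime], Reps Γ n ℓ)
    (𝔤 : Submodule ℚ (End ℚ (Betti n))) (h : Family s w m D P ρ 𝔤) (r : ℕ) (hr : RatRankLE 𝔤 r)
    -- regular unipotent monodromy of the `M i` at the zeros of `C i`
    (r' : ι → ℕ) (C : ι → MvPolynomial (Fin 2) ℤ) (hC : ∀ i, RegularCusp s m D (C i) ρ 𝔤 i (r' i))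
    -- one member, one prime number, one element of the Galois group
    (t₀ : Pt) (ht₀ : InU D t₀) (c : ℕ) (hc : IntegralMember m D P c t₀)
    (ℓ₀ : ℕ) [Fact ℓ₀.Prime] (σ : Gal(AlgebraicClosure ℚ/ℚ))
    (hσ : IndependentEigenvalues (restrictTo (ρ ℓ₀) (s t₀)) σ r)
    (hσ' : ∀ i, IndependentOn (restrictTo (ρ ℓ₀) (s t₀)) i σ (r' i)) :
    -- 100 percent of the members, every prime number
    AlmostAll fun t => InU D t ∧ ∀ (ℓ : ℕ) [Fact ℓ.Prime],
      Semisimple (restrictTo (ρ ℓ) (s t)) ∧
        TateTensorsOf (restrictTo (ρ ℓ) (s t)) (scalars ℓ 𝔤) :=
  tate_almostAll Pool.Agent.N592.HP.t_SV Pool.Agent.N279.HP.t_DV Pool.Agent.N592.HP.t_AA h r hr r'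
    ht₀ c (fun _ i hv a ha => hc _ hv i a ha) ℓ₀ σ hσ hσ' C hC

end Pool.Agent.Results.MP_bbcdf5_ag.RegularCuspFamilies
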