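import Mathlib
import Pool.Agent.N204.ZL.Lat

/-!
# The Tate conjecture at a given prime number, from finitely many Frobenius polynomials

Let `M` be a pure motive over a number field `K`, or over a finitely generated field `k` of characteristic
zero, with `ℓ`-adic realizations of dimension `N`.  `Γ` is the Galois group of `K` (or the fundamental group of
a model of `k` over a number field `K`, and `s` is given by a `K`-rational point).  Outside of a finite set
`S` of places `v` the motive has good reduction (along the point), with Frobenius polynomials `P v` independent
of `ℓ`, and `(q v) ^ c` times a Frobenius eigenvalue is an algebraic integer.  Let `r` be a number such that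
no `P v` has more than `r` multiplicatively independent roots.

The *relations* between numbers `z_1, ..., z_N` are the vectors `n` of integers such that the product of
the `z_i ^ {n_i}` is a root of unity.  Let `R` be a set of vectors which has rank at most `N - r`, and let `A` be
the group of permutations of `{1, ..., N}` which preserve `R`.  We fix a prime number `ℓ` and an
automorphism `τ` of the algebraic closure of `ℚ_ℓ`.  An element `γ` of the image of the Galois group at `ℓ` has
the *type* `a` if the eigenvalues of `ρ_ℓ(γ)` can be written as `z_1, ..., z_N` with relations `R` and
`τ (z_i) = z_{a(i)}` (no quotient of two of them being a root of unity).  In the same way we define the types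
of the elements of the Lie algebra of the image, with the linear relations between the eigenvalues.
The types of the Frobenius element at `v` can be read off from `P v`: if `P v` is separable modulo `ℓ`
and `τ` induces the Frobenius automorphism of the residue field, then the cycle type of `a` is given by
the degrees of the factors of `P v` modulo `ℓ`.
For a group `H` of permutations let `Λ_H` be the lattice which is generated by `R` and by the vectors
`e_i - e_{a(i)}`, `a` in `H`.

`𝔤` is the Lie algebra of the motivic Galois group of `M` over `ℚ_ℓ`, of rank at most `r`.  What is used of it
is contained in the definition `Motivic` (`IsMotivic`): it is a Lie algebra of endomorphisms with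
nondegenerate trace form, whose representation is semisimple, which contains every endomorphism that kills all
tensors killed by `𝔤`, and the tensors killed by `𝔤` (the classes of algebraic, or motivated, cycles) are Tate
tensors, that is, fixed by a subgroup of finite index of `Γ`.

**Theorem.**  Let `T` be a nonempty set of types which occur at `ℓ` for `τ`.  Suppose that for all subgroups
`H` of `A` for which there is an element `y` of `A` which normalizes `H` such that all elements of `T` are
conjugate in `A` to elements of the coset `H * y`, the lattice `Λ_H` contains `e_i - e_{b(i)}` for all
elements `b` of all groups `B` of permutations which contain `H` and have at least as many orbits as the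
dimension of the commutant of `𝔤`.  Then the Tate conjecture at `ℓ` holds for all motives in the tensor
category generated by `M`, over all finite extensions of the base field: the `ℓ`-adic representation is
semisimple (over all finite extensions), and the Tate tensors, in all tensor powers of the realization and of
its dual, are exactly the tensors killed by `𝔤`.

For example, let `A` be the product of the Weyl group `W` of the motivic Galois group and a central subgroup
(as for `GSp_N`, for `GSO_{2 n}` with `n` odd, and up to homotheties for the spin groups of type `B`, the
half-spin groups of type `D_n`, `n ≥ 5`, `G_2` in dimension `7`, `E_7` in dimension `56`).  Then, if the Tate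
conjecture holds at `ℓ` and the group is split over `ℚ_ℓ`, this can be proved by computing finitely many
Frobenius polynomials, namely polynomials whose types at `ℓ` generate `W` invariably, together with one which
splits over `ℚ_ℓ`; the theorem says that such polynomials prove the conjecture at `ℓ`, for the cycles of all
codimensions on all powers (of the varieties which define the motive).  The weights have to be of
multiplicity one, but the representation may be reducible, and no polarization is used.
Contrary to the usual arguments with the degrees of the factors of Frobenius polynomials, the eigenvalues at
different places are compared: a stable subspace determines sets of eigenvalues at all places, which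
correspond to each other under bijections which preserve the multiplicative relations.  So the
theorem applies also if at `ℓ` all Frobenius polynomials are reducible.

The theorem is about one given prime; `ZeroOneLaw` of MP_3703a7_ag is about 100 percent of the primes, and
it uses the types at another prime.  `TypesAtOnePrime` in MP_8f1292_ag has the conclusion that the
representation is semisimple, under weaker conditions.

Idea of the proof.  Let `U` be a subspace of the realization, over the algebraic closure of `ℚ_ℓ`, which is
stable under an open subgroup.  At every good place `v`, `U` determines a set of Frobenius eigenvalues.  For two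
good places consider the pencil of tangent vectors which is spanned by the logarithms of the Frobenius
elements: its members have at most `r` independent eigenvalues, so there is a bijection between the two
sets of eigenvalues which preserves the relations and the sets determined by all `U` at the same
time.  The automorphism `τ` permutes the subspaces `U`; so we obtain a group `H` which preserves
the sets of all `U`, and a coset `H * y` which contains conjugates of all elements of `T`.
Let `L ≤ 𝔤` be the Lie algebra of the endomorphisms which are tangent to the image of Galois in the Zariski
topology; it contains a maximal torus of `𝔤`.  If `L` is not reductive, the sum of the weights of `L` on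
its unipotent radical is dual, with respect to the trace form, to an element `d` of the torus at which the
roots are real, and the eigenvectors whose eigenvalues exceed a given one by a nonnegative number span a
subspace which is stable under `L`; so the eigenvalues of `d` are constant on the orbits of `H`, all roots of
`𝔤` vanish at `d` by the lattice condition, a contradiction.  So `L` is reductive.  The subspaces which are
spanned by the eigenvectors whose weights are congruent modulo the root lattice of `L` show that `Λ_H` is
contained in the root lattice of `L` (modulo `R`), which therefore contains all roots of `𝔤`; as the set of
the roots of `L` is closed, `L = 𝔤`.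
-/

set_option autoImplicit false

namespace Pool.Agent.Results.MP_bbcdf5_ag.TateAtGivenPrime

open NumberField IsDedekindDomain Polynomial Module Pool.Agent.Y114.TF Pool.Agent.Y114.GF
  Pool.Agent.Y114.MU Pool.Agent.Y114.RM Pool.Agent.R931.GD Pool.Agent.R931.ZL Pool.Agent.R931.ZM
  Pool.Agent.R931.PD Pool.Agent.R931.ZF Pool.Agent.R931.ZG

theorem result (K : Type) [Field K] [NumberField K] (Γ : Type) [Group Γ] [TopologicalSpace Γ]
    [IsTopologicalGroup Γ] [CompactSpace Γ] (s : Gal(AlgebraicClosure K/K) →* Γ)
    (hs : Continuous s)
    -- the `ℓ`-adic realizations
    (N : ℕ) (hN : 0 < N)
    (ρ : ∀ (ℓ : ℕ) [Fact ℓ.Prime], Rep1 Γ N ℓ) (hρ : ∀ (ℓ : ℕ) [Fact ℓ.Prime], Conts (ρ ℓ))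
    -- good reduction outside of a finite set of places
    (wt : ℤ) (c : ℕ) (S : Set (HeightOneSpectrum (𝓞 K))) (hS : S.Finite)
    (P : HeightOneSpectrum (𝓞 K) → ℚ[X])
    (hP : ∀ (ℓ : ℕ) [Fact ℓ.Prime], ∀ v ∉ S, ¬ Above v ℓ →
      GoodReduction (restrictTo (ρ ℓ) s) () wt v (P v))
    (hint : ∀ v ∉ S, IntegralAt c v (P v))
    -- at most `r` independent eigenvalues
    (r : ℕ) (hrank : ∀ v ∉ S, ¬ IndepRoots (r + 1) {P v})
    -- the relations, and their automorphism group
    (R : Set (Fin N → ℤ)) (hR : RankGE r R)
    -- the types at the prime number `ℓ`
    (ℓ : ℕ) [Fact ℓ.Prime] (T : Set (Equiv.Perm (Fin N))) (hne : T.Nonempty)
    (τ : Gal(PadicAlgCl ℓ/ℚ_[ℓ])) (htypes : ∀ a ∈ T, TypeOccurs s (ρ ℓ) R τ a)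
    -- the Lie algebra of the motivic Galois group at `ℓ`, of rank at most `r`
    (𝔤 : End1 N ℓ) (hmot : Motivic (ρ ℓ) 𝔤) (hrk : RankLE 𝔤 r)
    -- the condition on permutation groups
    (hT : ForcesAt (relAut R) T (LatticeFull R (commutantDim 𝔤))) :
    Semisimple (ρ ℓ) ∧ TateTensorsOf (ρ ℓ) 𝔤 :=
  Pool.Agent.N204.ZL.lattice_at (K := K) (Γ := Γ) (s := s) (N := N) (wt := wt) (c := c) (r := r)
    (S := S) (P := P) (ρ := ρ) ⟨hN, hs, hρ, hS, hP, hint, fun v hv => hrank v hv.1⟩ R hR ℓ T hne τ
    htypes 𝔤 hmot hrk hT

end Pool.Agent.Results.MP_bbcdf5_ag.TateAtGivenPrime
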